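import Pool.Agent.Y352.WP.Low

/-! # Packing subsets of large width into the binary cube: the asymptotic formula

The largest number of pairwise disjoint subsets of `{0,1}^n` of Euclidean width at least `t` is
asymptotic to `2^n / n`, uniformly for `t ∈ (0,1]`. -/

set_option autoImplicit false

namespace Pool.Agent.Results.MP_1a6900_co.AsymptoticFormula

open Filter Topology
open Pool.Agent.Results.MP_1a6900_co.WidthPackingOrder

theorem dirWidth_cube_le {n : ℕ} (i : Fin n) (A : Set (EuclideanSpace ℝ (Fin n)))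
    (hA : A ⊆ cube n) (hne : A.Nonempty) :
    dirWidth (convexHull ℝ A) (EuclideanSpace.single i 1) ≤ 1 := by
  have hb := image_convexHull_bounds A (EuclideanSpace.single i (1 : ℝ)) 0 1 (by
    intro x hx
    have h1 : inner ℝ (EuclideanSpace.single i (1 : ℝ)) x = x i := by
      rw [EuclideanSpace.inner_single_left]
      simp
    rw [h1]
    rcases hA hx i with h | h <;> rw [h] <;> norm_num)
  have hne' : (convexHull ℝ A).Nonempty := hne.mono (subset_convexHull ℝ A)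
  unfold dirWidth
  have h1 : sSup ((fun x => inner ℝ (EuclideanSpace.single i (1 : ℝ)) x) '' (convexHull ℝ A)) ≤ 1 := by
    apply csSup_le (hne'.image _)
    rintro _ ⟨x, hx, rfl⟩
    exact (hb x hx).2
  have h2 : 0 ≤ sInf ((fun x => inner ℝ (EuclideanSpace.single i (1 : ℝ)) x) '' (convexHull ℝ A)) := by
    apply le_csInf (hne'.image _)
    rintro _ ⟨x, hx, rfl⟩
    exact (hb x hx).1
  linarith

theorem width_le_one {n : ℕ} (hn : 1 ≤ n) (A : Set (EuclideanSpace ℝ (Fin n)))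
    (hA : A ⊆ cube n) (hne : A.Nonempty) : width (convexHull ℝ A) ≤ 1 := by
  refine le_trans (csInf_le ?_ ⟨EuclideanSpace.single ⟨0, hn⟩ (1 : ℝ), by simp, rfl⟩)
    (dirWidth_cube_le ⟨0, hn⟩ A hA hne)
  refine ⟨0, ?_⟩
  rintro _ ⟨u, _, rfl⟩
  exact dirWidth_nonneg A hA hne u

/-- nothing can be packed for `t > 1` -/
theorem N_eq_zero {n : ℕ} (hn : 1 ≤ n) {t : ℝ} (ht : 1 < t) : N n t = 0 := by
  obtain ⟨F, hF1, hF2, -, hF4⟩ := N_attained n (show (0 : ℝ) < t by linarith)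
  by_contra h0
  have i : Fin (N n t) := ⟨0, Nat.pos_of_ne_zero h0⟩
  have h1 := hF4 i
  have h2 := width_le_one hn (F i) (hF2 i) (hF1 i)
  linarith

theorem N_antitone {n : ℕ} {t t' : ℝ} (ht : 0 < t) (htt : t ≤ t') : N n t' ≤ N n t := by
  obtain ⟨F, hF1, hF2, hF3, hF4⟩ := N_attained n (lt_of_lt_of_le ht htt)
  exact le_csSup (bddAbove_packings n ht) ⟨F, hF1, hF2, hF3, fun i => htt.trans (hF4 i)⟩

theorem up (n : ℕ) {t : ℝ} (ht0 : 0 < t) : (N n t : ℝ) ≤ 2 ^ n / (n + 1) := by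
  have h1 : (N n t : ℝ) * (n + 1) ≤ 2 ^ n := by exact_mod_cast N_mul_le n ht0
  have hpos : (0 : ℝ) < (n : ℝ) + 1 := by positivity
  rw [le_div_iff₀ hpos]
  exact h1

theorem tend {t : ℝ} (ht0 : 0 < t) (ht1 : t ≤ 1) :
    Tendsto (fun n : ℕ => (N n t : ℝ) / ((2 : ℝ) ^ n / n)) atTop (𝓝 1) := by
  rw [Metric.tendsto_atTop]
  intro ε hε
  -- choose `δ` with `(1 - δ) / (1 + δ)^2 > 1 - ε`
  set δ : ℝ := min 1 (ε / 8) with hδdef
  have hδ0 : 0 < δ := lt_min one_pos (by positivity)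
  have hδ1 : δ ≤ 1 := min_le_left _ _
  have hδε : δ ≤ ε / 8 := min_le_right _ _
  obtain ⟨n0, hn0⟩ := Pool.Agent.Y352.WP.lower hδ0 hδ1
  refine ⟨n0 + 1, fun n hn => ?_⟩
  have hn1 : 1 ≤ n := by omega
  have hnpos : (0 : ℝ) < n := by exact_mod_cast hn1
  have h2n : (0 : ℝ) < 2 ^ n := by positivity
  have hlow := hn0 n (by omega) t ht0 ht1
  have hup := up n ht0
  have hq : (N n t : ℝ) / ((2 : ℝ) ^ n / n) = (N n t * n) / 2 ^ n := by
    field_simp
  rw [hq, Real.dist_eq, abs_lt]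
  set q : ℝ := (N n t * n : ℝ) / 2 ^ n with hqdef
  have h1 : 1 - δ ≤ (1 + δ) ^ 2 * q := by
    rw [hqdef, ← mul_div_assoc, le_div_iff₀ h2n]
    calc (1 - δ) * (2 : ℝ) ^ n ≤ (1 + δ) ^ 2 * n * N n t := hlow
      _ = (1 + δ) ^ 2 * (N n t * n) := by ring
  have h2 : q < 1 := by
    rw [hqdef, div_lt_one h2n]
    rw [le_div_iff₀ (by positivity)] at hup
    have hN : (0 : ℝ) < N n t ∨ (N n t : ℝ) = 0 := by
      rcases Nat.eq_zero_or_pos (N n t) with h | h
      · right; exact_mod_cast h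
      · left; exact_mod_cast h
    rcases hN with h | h
    · nlinarith
    · rw [h, zero_mul]; exact h2n
  have h3 : (1 + δ) ^ 2 ≤ 1 + 3 * δ := by nlinarith
  have hq0 : 0 ≤ q := by rw [hqdef]; positivity
  constructor
  · nlinarith
  · linarith

/-- **Answer to Q1, asymptotic form.** Let `N(n,t)` be the largest number of pairwise disjoint
subsets of `{0,1}^n` of Euclidean width at least `t`. (1) `N(n,t) ∼ 2^n / n` for every fixed
`t ∈ (0,1]`, and this holds uniformly in `t`: it holds for `t = 1`, and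
`N(n,1) ≤ N(n,t) ≤ 2^n / (n+1)` for all `n` and all `t ∈ (0,1]`. (2) For all `n ≥ 1` and
`t ∈ (0,1]`, `2^n / (2n) ≤ N(n,t)`, and `N(n,t) = 2^n / (n+1)` if and only if `n + 1` is a power of
two. (3) `N(n,t) = 0` for `t > 1` and `n ≥ 1`. In particular `N(n,t) = Θ(2^n / n)`. -/
theorem result :
    (∀ t : ℝ, 0 < t → t ≤ 1 →
      Asymptotics.IsEquivalent atTop (fun n : ℕ => (N n t : ℝ)) (fun n : ℕ => (2 : ℝ) ^ n / n)) ∧
    (∀ ε : ℝ, 0 < ε → ∃ n₀ : ℕ, ∀ n ≥ n₀, ∀ t : ℝ, 0 < t → t ≤ 1 →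
      (1 - ε) * ((2 : ℝ) ^ n / n) ≤ N n t ∧ (N n t : ℝ) ≤ 2 ^ n / (n + 1)) ∧
    (∀ n : ℕ, 1 ≤ n → ∀ t : ℝ, 0 < t → t ≤ 1 →
      (2 : ℝ) ^ n / (2 * n) ≤ N n t ∧ N n 1 ≤ N n t ∧ (N n t : ℝ) ≤ 2 ^ n / (n + 1) ∧
        ((N n t : ℝ) = 2 ^ n / (n + 1) ↔ ∃ k : ℕ, n + 1 = 2 ^ k)) ∧
    (∀ n : ℕ, 1 ≤ n → ∀ t : ℝ, 1 < t → N n t = 0) := by
  refine ⟨?_, ?_, ?_, fun n hn t ht => N_eq_zero hn ht⟩
  · intro t ht0 ht1
    rw [Asymptotics.isEquivalent_iff_tendsto_one]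
    · exact tend ht0 ht1
    · filter_upwards [eventually_ge_atTop 1] with n hn
      have : (0 : ℝ) < n := by exact_mod_cast hn
      positivity
  · intro ε hε
    have h1 := tend (t := 1) one_pos le_rfl
    rw [Metric.tendsto_atTop] at h1
    obtain ⟨n0, hn0⟩ := h1 ε hε
    refine ⟨n0 + 1, fun n hn t ht0 ht1 => ⟨?_, up n ht0⟩⟩
    have hn1 : 1 ≤ n := by omega
    have hnpos : (0 : ℝ) < n := by exact_mod_cast hn1
    have h2 := hn0 n (by omega)
    rw [Real.dist_eq, abs_lt] at h2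
    have h3 : (0 : ℝ) < (2 : ℝ) ^ n / n := by positivity
    have h4 : (1 - ε) * ((2 : ℝ) ^ n / n) ≤ N n 1 := by
      have h5 : 1 - ε ≤ (N n 1 : ℝ) / ((2 : ℝ) ^ n / n) := by linarith
      rwa [le_div_iff₀ h3] at h5
    have h6 : (N n 1 : ℝ) ≤ N n t := by exact_mod_cast N_antitone ht0 ht1
    linarith
  · intro n hn t ht0 ht1
    have hnpos : (0 : ℝ) < n := by exact_mod_cast hn
    refine ⟨?_, N_antitone ht0 ht1, up n ht0, ?_, ?_⟩
    · have h1 : (2 : ℝ) ^ n ≤ N n t * (2 * n) := by exact_mod_cast le_N_mul' hn ht0 ht1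
      rw [div_le_iff₀ (by positivity)]
      exact h1
    · intro h
      rw [eq_div_iff (by positivity)] at h
      have h1 : N n t * (n + 1) = 2 ^ n := by exact_mod_cast h
      have h2 : (n + 1) ∣ 2 ^ n := ⟨N n t, by rw [mul_comm]; exact h1.symm⟩
      obtain ⟨k, -, hk⟩ := (Nat.dvd_prime_pow Nat.prime_two).mp h2
      exact ⟨k, hk⟩
    · rintro ⟨k, hk⟩
      have h1 : (2 : ℝ) ^ n ≤ N n t * (n + 1) := by
        have := le_N_mul hn hk.le ht0 ht1
        rw [← hk] at this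
        exact_mod_cast this
      apply le_antisymm (up n ht0)
      rw [div_le_iff₀ (by positivity)]
      exact h1

end Pool.Agent.Results.MP_1a6900_co.AsymptoticFormula
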